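import Pool.Agent.Helper68.KPR.St
import Pool.Agent.Helper5.KPA.StT
import Pool.Agent.Helper16.KP.M_NUL

/-! # Project KP, module RBD: bounded quotients are regular functions -/

set_option autoImplicit false

namespace Pool.Agent.Helper54.KPR

open Pool.Agent.Helper52.KP Pool.Agent.Helper5.KPA MvPolynomial MeasureTheory
open Pool.Agent.Helper68.KPR

/-- Quotient bound. -/
theorem quot_bd {C : Cone} (hC : Good C) {e : ℕ} (he : C.n ≤ e)
    {x : Fin C.nx → MvPolynomial (Fin C.m) ℂ} (hx : ∀ i, x i ∈ C.R e) :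
    ∃ B : ℝ, 0 ≤ B ∧ ∀ z ∈ C.U, ∃ i, ev (C.X i) z ≠ 0 ∧
      ‖ev (x i) z‖ ≤ B * C.sz z ^ (e - C.n) * ‖ev (C.X i) z‖ ^ C.n := by
  choose b hb using fun i => hC.bdd e (x i) (hx i)
  obtain ⟨S, hS⟩ : ∃ S, S = ∑ i, |b i| := ⟨_, rfl⟩
  have hS0 : 0 ≤ S := hS ▸ Finset.sum_nonneg fun i _ => abs_nonneg _
  have hbS : ∀ i, b i ≤ S := fun i => (le_abs_self _).trans (by
    rw [hS]
    exact Finset.single_le_sum (f := fun i => |b i|) (fun i _ => abs_nonneg _) (Finset.mem_univ i))
  refine ⟨S * (C.nx : ℝ) ^ C.n, by positivity, ?_⟩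
  intro z hz
  have hs := hC.Xpos z hz
  have hne : (Finset.univ : Finset (Fin C.nx)).Nonempty := by
    by_contra h
    rw [Finset.not_nonempty_iff_eq_empty] at h
    simp [Cone.sz, h] at hs
  obtain ⟨i, _, hi⟩ := Finset.exists_le_of_sum_le (s := (Finset.univ : Finset (Fin C.nx)))
    (f := fun _ => C.sz z / C.nx) (g := fun i => ‖ev (C.X i) z‖) hne (by
      rw [Finset.sum_const, Finset.card_univ, Fintype.card_fin, nsmul_eq_mul]
      have hn0 : (C.nx : ℝ) ≠ 0 := by
        rintro h0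
        have : C.nx = 0 := by exact_mod_cast h0
        obtain ⟨j, _⟩ := hne
        exact absurd j.2 (by omega)
      rw [mul_div_cancel₀ _ hn0]
      rfl)
  have hnx : (0 : ℝ) < C.nx := by exact_mod_cast i.pos
  have hi0 : 0 < ‖ev (C.X i) z‖ := (div_pos hs hnx).trans_le hi
  refine ⟨i, norm_pos_iff.1 hi0, ?_⟩
  have h1 : C.sz z ≤ C.nx * ‖ev (C.X i) z‖ := by
    rw [div_le_iff₀ hnx] at hi
    linarith
  have h2 : C.sz z ^ e = C.sz z ^ (e - C.n) * C.sz z ^ C.n := by
    rw [← pow_add, Nat.sub_add_cancel he]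
  calc ‖ev (x i) z‖ ≤ b i * C.sz z ^ e := hb i z
    _ ≤ S * C.sz z ^ e := mul_le_mul_of_nonneg_right (hbS i) (by positivity)
    _ = S * C.sz z ^ (e - C.n) * C.sz z ^ C.n := by rw [h2]; ring
    _ ≤ S * C.sz z ^ (e - C.n) * (C.nx * ‖ev (C.X i) z‖) ^ C.n :=
        mul_le_mul_of_nonneg_left (pow_le_pow_left₀ hs.le h1 _) (by positivity)
    _ = _ := by rw [mul_pow]; ring

/-- Almost every point is in `U`. -/
theorem ae_U {C : Cone} (hC : Good C) : ∀ᵐ v : Fin C.m → ℂ, v ∈ C.U := by
  have h := Pool.Agent.Helper16.KP.hNUL C.m C.Δ hC.Δ0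
  rw [ae_iff]
  have h2 : {a : Fin C.m → ℂ | ¬ a ∈ C.U} = {z | ev C.Δ z = 0} := by
    ext z
    simp [Cone.U]
  rw [h2]
  exact h

theorem hRBD (hTRL : StTRL) (hCBD : StCBD) : StRBD := by
  intro C hC e x he hx hxy
  obtain ⟨B, hB0, hB⟩ := quot_bd hC he hx
  -- a point of `U`
  obtain ⟨z₀, hz₀⟩ : ∃ z, z ∈ C.U := by
    by_contra h
    push Not at h
    refine hC.Δ0 (MvPolynomial.funext fun z => ?_)
    have := h z
    simp only [Cone.U, Set.mem_ofPred_eq, not_not] at this
    simpa [ev] using this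
  obtain ⟨i₀, hi₀, _⟩ := hB z₀ hz₀
  have hX0 : C.X i₀ ≠ 0 := by
    rintro h
    rw [h] at hi₀
    simp [ev] at hi₀
  have hD0 : C.X i₀ ^ C.n ≠ 0 := pow_ne_zero _ hX0
  have hsc : Continuous C.sz := by
    unfold Cone.sz
    exact continuous_finsetSum _ fun i _ => (MvPolynomial.continuous_eval _).norm
  -- the quotient is bounded on `U`
  have hq : ∀ z ∈ C.U, ‖ev (x i₀) z / ev (C.X i₀ ^ C.n) z‖ ≤ B * C.sz z ^ (e - C.n) := by
    intro z hz
    obtain ⟨i, hi, hle⟩ := hB z hz
    by_cases h0 : ev (C.X i₀ ^ C.n) z = 0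
    · rw [h0, div_zero, norm_zero]
      have := (hC.Xpos z hz).le
      positivity
    have h1 := congrArg (ev · z) (hxy i₀ i)
    have h2 : ev (x i₀) z * ev (C.X i) z ^ C.n = ev (x i) z * ev (C.X i₀ ^ C.n) z := by
      simpa [ev] using h1
    have hXn : 0 < ‖ev (C.X i) z‖ ^ C.n := pow_pos (norm_pos_iff.2 hi) _
    have h3 : ev (x i₀) z / ev (C.X i₀ ^ C.n) z = ev (x i) z / ev (C.X i) z ^ C.n := by
      rw [div_eq_div_iff h0 (pow_ne_zero _ hi)]
      exact h2
    rw [h3, norm_div, norm_pow, div_le_iff₀ hXn]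
    exact hle
  -- `StTRL`
  obtain ⟨s, hs⟩ : C.X i₀ ^ C.n ∣ x i₀ := by
    refine hTRL C.m (x i₀) (C.X i₀ ^ C.n) hD0 fun c => ?_
    obtain ⟨K, hK⟩ := (isCompact_closedBall (0 : Fin C.m → ℂ) c).exists_bound_of_continuousOn
      (f := fun z => B * C.sz z ^ (e - C.n)) ((continuous_const.mul (hsc.pow _)).continuousOn)
    have hset : {v : Fin C.m → ℂ | ‖v‖ ≤ c} = Metric.closedBall 0 c := by
      ext v; simp
    rw [hset]
    have hae : ∀ᵐ v : Fin C.m → ℂ, v ∈ C.U := ae_U hC
    have h1 : ∫⁻ v in Metric.closedBall (0 : Fin C.m → ℂ) c,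
        ENNReal.ofReal (‖ev (x i₀) v / ev (C.X i₀ ^ C.n) v‖ ^ 2) ≤
        ∫⁻ v in Metric.closedBall (0 : Fin C.m → ℂ) c, ENNReal.ofReal (K ^ 2) := by
      refine lintegral_mono_ae ?_
      refine (ae_restrict_iff' measurableSet_closedBall).2 ?_
      filter_upwards [hae] with v hv hvc
      refine ENNReal.ofReal_le_ofReal ?_
      refine pow_le_pow_left₀ (norm_nonneg _) ?_ 2
      refine (hq v hv).trans ?_
      exact (le_abs_self _).trans (by simpa [Real.norm_eq_abs] using hK v hvc)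
    refine (h1.trans_lt ?_).ne
    rw [setLIntegral_const]
    exact ENNReal.mul_lt_top ENNReal.ofReal_lt_top measure_closedBall_lt_top
  have hxi : ∀ i, x i = s * C.X i ^ C.n := by
    intro i
    have h1 := hxy i i₀
    rw [hs] at h1
    refine mul_right_cancel₀ hD0 ?_
    rw [h1]
    ring
  refine ⟨s, ?_, hxi⟩
  refine hCBD C hC (e - C.n) s ?_ ?_
  · intro c z
    have hne : ∀ c : ℂ, c ≠ 0 → ∀ z, ev s (scl C.w c z) = c ^ (e - C.n) * ev s z := by
      intro c hc
      obtain ⟨σ, hσ⟩ : ∃ σ : MvPolynomial (Fin C.m) ℂ, ∀ z, ev σ z = ev s (scl C.w c z) := by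
        refine ⟨MvPolynomial.bind₁ (fun j => MvPolynomial.C (c ^ C.w j) * MvPolynomial.X j) s, ?_⟩
        intro z
        simp only [ev, MvPolynomial.eval, MvPolynomial.eval₂Hom_bind₁]
        congr 1
        congr 1
        funext j
        simp [scl]
      have h1 : C.X i₀ ^ C.n * (σ - MvPolynomial.C (c ^ (e - C.n)) * s) = 0 := by
        refine MvPolynomial.funext fun z => ?_
        have h2 := hC.hom e (x i₀) (hx i₀) c z
        have h3 := hC.hom 1 (C.X i₀) (hC.XR i₀) c z
        have h4 := hσ z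
        rw [hs] at h2
        simp only [ev, map_mul, map_pow] at h2 h3 h4
        rw [h3, pow_one, mul_pow] at h2
        have h5 : c ^ e = c ^ (e - C.n) * c ^ C.n := by
          rw [← pow_add, Nat.sub_add_cancel he]
        rw [h5] at h2
        simp only [map_mul, map_sub, map_pow, MvPolynomial.eval_C, map_zero]
        rw [h4]
        refine mul_left_cancel₀ (pow_ne_zero C.n hc) ?_
        linear_combination h2
      have h6 := (mul_eq_zero.1 h1).resolve_left hD0
      intro z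
      have h7 := congrArg (ev · z) h6
      simp only [ev, map_sub, map_mul, MvPolynomial.eval_C, map_zero] at h7
      have h8 := hσ z
      simp only [ev] at h8
      simp only [ev]
      rw [← h8]
      linear_combination h7
    by_cases hc : c = 0
    · subst hc
      have hcont1 : Continuous fun c : ℂ => ev s (scl C.w c z) :=
        (MvPolynomial.continuous_eval s).comp (continuous_pi fun j =>
          (continuous_id.pow _).mul continuous_const)
      have hcont2 : Continuous fun c : ℂ => c ^ (e - C.n) * ev s z :=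
        (continuous_id.pow _).mul continuous_const
      have := Continuous.ext_on (dense_compl_singleton (0 : ℂ)) hcont1 hcont2
        (fun c hc => hne c hc z)
      exact congrFun this 0
    · exact hne c hc z
  · refine ⟨B, fun z hz => ?_⟩
    obtain ⟨i, hi, hle⟩ := hB z hz
    have h1 := congrArg (ev · z) (hxi i)
    have h2 : ev (x i) z = ev s z * ev (C.X i) z ^ C.n := by simpa [ev] using h1
    rw [h2, norm_mul, norm_pow] at hle
    exact le_of_mul_le_mul_right hle (pow_pos (norm_pos_iff.2 hi) _)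

end Pool.Agent.Helper54.KPR
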